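import Mathlib

set_option autoImplicit false

open scoped commutatorElement

namespace Pool.Agent.Helper705.SRF

/-- affine maps `ω ↦ s ^ n * ω + b` -/
@[ext]
structure Aff (S : Type) [CommRing S] (s : Sˣ) where
  n : ℤ
  b : S

namespace Aff

variable {S : Type} [CommRing S] {s : Sˣ}

instance : Mul (Aff S s) := ⟨fun x y => ⟨x.n + y.n, x.b + ((s ^ x.n : Sˣ) : S) * y.b⟩⟩
instance : One (Aff S s) := ⟨⟨0, 0⟩⟩
instance : Inv (Aff S s) := ⟨fun x => ⟨-x.n, -(((s ^ (-x.n) : Sˣ) : S) * x.b)⟩⟩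

@[simp] lemma mul_n (x y : Aff S s) : (x * y).n = x.n + y.n := rfl
@[simp] lemma mul_b (x y : Aff S s) : (x * y).b = x.b + ((s ^ x.n : Sˣ) : S) * y.b := rfl
@[simp] lemma one_n : (1 : Aff S s).n = 0 := rfl
@[simp] lemma one_b : (1 : Aff S s).b = 0 := rfl
@[simp] lemma inv_n (x : Aff S s) : (x⁻¹).n = -x.n := rfl
@[simp] lemma inv_b (x : Aff S s) : (x⁻¹).b = -(((s ^ (-x.n) : Sˣ) : S) * x.b) := rfl

instance : Group (Aff S s) := Group.ofLeftAxioms
  (by intro x y z; ext <;> simp [zpow_add]; · ring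
      · ring)
  (by intro x; ext <;> simp)
  (by intro x; ext <;> simp)

/-- the action on `S` -/
def toPerm : Aff S s →* Equiv.Perm S where
  toFun x :=
    { toFun := fun ω => ((s ^ x.n : Sˣ) : S) * ω + x.b
      invFun := fun ω => ((s ^ (-x.n) : Sˣ) : S) * (ω - x.b)
      left_inv := by
        intro ω
        have h : ((s ^ (-x.n) : Sˣ) : S) * ((s ^ x.n : Sˣ) : S) = 1 := by
          rw [← Units.val_mul, ← zpow_add]; simp
        linear_combination ω * h
      right_inv := by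
        intro ω
        have h : ((s ^ x.n : Sˣ) : S) * ((s ^ (-x.n) : Sˣ) : S) = 1 := by
          rw [← Units.val_mul, ← zpow_add]; simp
        linear_combination (ω - x.b) * h }
  map_one' := by ext ω; simp
  map_mul' x y := by
    ext ω
    simp only [mul_n, mul_b, Equiv.coe_fn_mk, Equiv.Perm.coe_mul, Function.comp_apply]
    rw [zpow_add, Units.val_mul]; ring

@[simp] lemma toPerm_apply (x : Aff S s) (ω : S) :
    toPerm x ω = ((s ^ x.n : Sˣ) : S) * ω + x.b := rfl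

/-- projection to the exponent -/
def projn : Aff S s →* Multiplicative ℤ where
  toFun x := Multiplicative.ofAdd x.n
  map_one' := rfl
  map_mul' _ _ := rfl

/-- translations -/
def trans : Multiplicative S →* Aff S s where
  toFun b := ⟨0, Multiplicative.toAdd b⟩
  map_one' := rfl
  map_mul' a b := by ext <;> simp

instance : Group.IsSolvable (Aff S s) := by
  refine Group.isSolvable_of_ker_le_range (trans (S := S) (s := s)) projn ?_
  intro x hx
  refine ⟨Multiplicative.ofAdd x.b, ?_⟩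
  have hx' : x.n = 0 := by
    have : projn x = 1 := hx
    exact this
  ext
  · simp [trans, hx']
  · simp [trans]

@[simp] lemma comm_n (x y : Aff S s) : (⁅x, y⁆).n = 0 := by
  simp [commutatorElement_def]

lemma comm_trans (b : S) (z : Aff S s) :
    ⁅(⟨0, b⟩ : Aff S s), z⁆ = ⟨0, b - ((s ^ z.n : Sˣ) : S) * b⟩ := by
  have h : (⟨0, b⟩ : Aff S s) * z = (⟨0, b - ((s ^ z.n : Sˣ) : S) * b⟩ : Aff S s) * (z * ⟨0, b⟩) := by
    ext
    · simp
    · simp
  have h2 : ⁅(⟨0, b⟩ : Aff S s), z⁆ = (⟨0, b⟩ * z) * (z * ⟨0, b⟩)⁻¹ := by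
    rw [commutatorElement_def, mul_inv_rev]; group
  rw [h2, h, mul_assoc, mul_inv_cancel, mul_one]

@[simp] lemma pow_n (x : Aff S s) (k : ℕ) : (x ^ k).n = k * x.n := by
  induction k with
  | zero => simp
  | succ k ih => rw [pow_succ, mul_n, ih]; push_cast; ring

lemma comm_sq (h2 : (2 : S) = 0) (x y : Aff S s) : ⁅x, y⁆ ^ 2 = 1 := by
  have h := comm_n x y
  ext
  · simp
  · rw [pow_two, mul_b, h]
    simp only [zpow_zero, Units.val_one, one_mul, one_b]
    linear_combination (⁅x, y⁆).b * h2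

lemma key [IsDomain S] (h2 : (2 : S) = 0) (hs : ∀ n : ℤ, n ≠ 0 → ((s ^ n : Sˣ) : S) ≠ 1)
    (x y : Aff S s) :
    (∀ k : ℕ, toPerm ⁅⁅x, y⁆, y ^ k⁆ = 1) ∨
    (∀ k : ℕ, k ≠ 0 → (∀ ω, toPerm ⁅⁅x, y⁆, y ^ k⁆ (toPerm ⁅⁅x, y⁆, y ^ k⁆ ω) = ω) ∧
      ∀ ω, toPerm ⁅⁅x, y⁆, y ^ k⁆ ω ≠ ω) := by
  have hc : ⁅x, y⁆ = ⟨0, (⁅x, y⁆).b⟩ := by ext <;> simp
  set b := (⁅x, y⁆).b with hb
  rw [hc]
  by_cases hb0 : b = 0
  · left
    intro k
    rw [comm_trans, hb0]
    ext ω; simp
  by_cases hn0 : y.n = 0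
  · left
    intro k
    rw [comm_trans, pow_n, hn0]
    ext ω; simp
  right
  intro k hk
  have hne : b - ((s ^ (y ^ k).n : Sˣ) : S) * b ≠ 0 := by
    intro h
    have h' : (1 - ((s ^ (y ^ k).n : Sˣ) : S)) * b = 0 := by linear_combination h
    rcases mul_eq_zero.mp h' with h'' | h''
    · refine hs (y ^ k).n ?_ (sub_eq_zero.mp h'').symm
      rw [pow_n]
      exact mul_ne_zero (by exact_mod_cast hk) hn0
    · exact hb0 h''
  rw [comm_trans]
  set c := b - ((s ^ (y ^ k).n : Sˣ) : S) * b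
  constructor
  · intro ω
    simp only [toPerm_apply, zpow_zero, Units.val_one, one_mul]
    linear_combination c * h2
  · intro ω h
    simp only [toPerm_apply, zpow_zero, Units.val_one, one_mul] at h
    exact hne (by linear_combination h)

end Aff

end Pool.Agent.Helper705.SRF
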