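import Mathlib

set_option autoImplicit false

namespace Pool.Agent.Helper705.SRF

variable {Ω : Type}

/-- bilinear form with kernel `K` on finitely supported functions -/
noncomputable def B (K : Ω → Ω → ZMod 2) :
    (Ω →₀ ZMod 2) →ₗ[ZMod 2] (Ω →₀ ZMod 2) →ₗ[ZMod 2] ZMod 2 :=
  Finsupp.linearCombination (ZMod 2) (fun ω => Finsupp.linearCombination (ZMod 2) (K ω))

@[simp] lemma B_single (K : Ω → Ω → ZMod 2) (ω ω' : Ω) (a b : ZMod 2) :
    B K (Finsupp.single ω a) (Finsupp.single ω' b) = a * b * K ω ω' := by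
  simp [B, mul_assoc]

/-- augmentation -/
noncomputable def aug : (Ω →₀ ZMod 2) →ₗ[ZMod 2] ZMod 2 :=
  Finsupp.linearCombination (ZMod 2) (fun _ => (1 : ZMod 2))

@[simp] lemma aug_single (ω : Ω) (a : ZMod 2) : aug (Finsupp.single ω a) = a := by
  simp [aug]

open Classical in
/-- the kernel of the invariant alternating form -/
noncomputable def kerB (ω ω' : Ω) : ZMod 2 := if ω = ω' then 0 else 1

/-- a triangular kernel -/
noncomputable def kerL [LinearOrder Ω] (ω ω' : Ω) : ZMod 2 := if ω < ω' then 1 else 0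

lemma kerL_sub [LinearOrder Ω] (ω ω' : Ω) : kerL ω ω' - kerL ω' ω = kerB ω ω' := by
  unfold kerL kerB
  rcases lt_trichotomy ω ω' with h | h | h
  · simp [h, h.ne, h.not_gt]
  · subst h; simp
  · simp only [h.not_gt, h, h.ne', if_true, if_false]; decide

lemma kerB_symm (ω ω' : Ω) : kerB ω ω' = kerB ω' ω := by
  unfold kerB
  by_cases h : ω = ω'
  · subst h; rfl
  · simp [h, Ne.symm h]

lemma kerB_perm (σ : Equiv.Perm Ω) (ω ω' : Ω) : kerB (σ ω) (σ ω') = kerB ω ω' := by
  by_cases h : ω = ω'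
  · subst h; simp [kerB]
  · have h' : σ ω ≠ σ ω' := fun e => h (σ.injective e)
    simp [kerB, h, h']

lemma B_bilin_ext {K : Ω → Ω → ZMod 2} {f : (Ω →₀ ZMod 2) → (Ω →₀ ZMod 2) → ZMod 2}
    (h1 : ∀ a b c, f (a + b) c = f a c + f b c) (h2 : ∀ a b c, f a (b + c) = f a b + f a c)
    (h3 : ∀ ω ω' a b, f (Finsupp.single ω a) (Finsupp.single ω' b) = a * b * K ω ω')
    (m m' : Ω →₀ ZMod 2) : f m m' = B K m m' := by
  have h0l : ∀ c, f 0 c = 0 := fun c => by simpa using h1 0 0 c
  have h0r : ∀ c, f c 0 = 0 := fun c => by simpa using h2 c 0 0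
  induction m using Finsupp.induction_linear with
  | zero => simp [h0l]
  | add p q hp hq => rw [h1, hp, hq]; simp
  | single ω a =>
    induction m' using Finsupp.induction_linear with
    | zero => simp [h0r]
    | add p q hp hq => rw [h2, hp, hq]; simp
    | single ω' b => simp [h3]

lemma B_sub_swap [LinearOrder Ω] (m m' : Ω →₀ ZMod 2) :
    B kerL m m' - B kerL m' m = B kerB m m' := by
  refine B_bilin_ext (K := kerB) (f := fun m m' => B kerL m m' - B kerL m' m) ?_ ?_ ?_ m m'
  · intro a b c; simp; ring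
  · intro a b c; simp; ring
  · intro ω ω' a b
    simp only [B_single]
    rw [← kerL_sub]; ring

lemma B_symm (m m' : Ω →₀ ZMod 2) : B kerB m' m = B kerB m m' := by
  refine B_bilin_ext (K := kerB) (f := fun m m' => B kerB m' m) ?_ ?_ ?_ m m'
  · intro a b c; simp
  · intro a b c; simp
  · intro ω ω' a b
    simp only [B_single]
    rw [kerB_symm]; ring

lemma B_perm (σ : Equiv.Perm Ω) (m m' : Ω →₀ ZMod 2) :
    B kerB (Finsupp.mapDomain σ m) (Finsupp.mapDomain σ m') = B kerB m m' := by
  refine B_bilin_ext (K := kerB)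
    (f := fun m m' => B kerB (Finsupp.mapDomain σ m) (Finsupp.mapDomain σ m')) ?_ ?_ ?_ m m'
  · intro a b c; simp [Finsupp.mapDomain_add]
  · intro a b c; simp [Finsupp.mapDomain_add]
  · intro ω ω' a b
    simp only [Finsupp.mapDomain_single, B_single]
    rw [kerB_perm]

lemma zmod2_add_self (x : ZMod 2) : x + x = 0 := by revert x; decide

lemma zmod2_sq (x : ZMod 2) : x * x = x := by revert x; decide

lemma quad_ext (h g : (Ω →₀ ZMod 2) → ZMod 2)
    (h0 : h 0 = 0) (hadd : ∀ a b, h (a + b) = h a + h b)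
    (g0 : g 0 = 0) (gadd : ∀ a b, g (a + b) = g a + g b)
    (hs : ∀ ω a, h (Finsupp.single ω a) = g (Finsupp.single ω a)) (m : Ω →₀ ZMod 2) :
    h m = g m := by
  induction m using Finsupp.induction_linear with
  | zero => rw [h0, g0]
  | add p q hp hq => rw [hadd, gadd, hp, hq]
  | single ω a => exact hs ω a

lemma B_self (m : Ω →₀ ZMod 2) : B kerB m m = 0 := by
  refine quad_ext (fun m => B kerB m m) (fun _ => 0) (by simp) ?_ rfl (by simp) ?_ m
  · intro a b
    simp only [map_add, LinearMap.add_apply]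
    have := zmod2_add_self (B kerB a b)
    rw [B_symm a b]
    linear_combination this
  · intro ω a
    simp [kerB]

lemma B_invol (σ : Equiv.Perm Ω) (hσ : ∀ ω, σ (σ ω) = ω) (hf : ∀ ω, σ ω ≠ ω)
    (m : Ω →₀ ZMod 2) : B kerB m (Finsupp.mapDomain σ m) = aug m := by
  refine quad_ext (fun m => B kerB m (Finsupp.mapDomain σ m)) (fun m => aug m) (by simp) ?_
    (by simp) (by intro a b; simp) ?_ m
  · intro a b
    have hcomp : Finsupp.mapDomain σ (Finsupp.mapDomain σ b) = b := by
      rw [← Finsupp.mapDomain_comp]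
      have : (σ ∘ σ : Ω → Ω) = id := by funext ω; exact hσ ω
      rw [this, Finsupp.mapDomain_id]
    have e1 : B kerB b (Finsupp.mapDomain σ a) = B kerB a (Finsupp.mapDomain σ b) := by
      rw [B_symm]
      have := B_perm σ a (Finsupp.mapDomain σ b)
      rw [hcomp] at this
      exact this
    simp only [Finsupp.mapDomain_add, map_add, LinearMap.add_apply]
    have := zmod2_add_self (B kerB a (Finsupp.mapDomain σ b))
    rw [e1]
    linear_combination this
  · intro ω a
    have : kerB ω (σ ω) = 1 := by simp [kerB, (hf ω).symm]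
    simp [this, zmod2_sq]

/-- additive-hom version of `B` -/
noncomputable def BAdd (K : Ω → Ω → ZMod 2) : (Ω →₀ ZMod 2) →+ (Ω →₀ ZMod 2) →+ ZMod 2 :=
  AddMonoidHom.mk' (fun m => (B K m).toAddMonoidHom) (by intro a b; ext; simp)

@[simp] lemma BAdd_apply (K : Ω → Ω → ZMod 2) (m m' : Ω →₀ ZMod 2) :
    BAdd K m m' = B K m m' := rfl

end Pool.Agent.Helper705.SRF
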