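import Mathlib

set_option autoImplicit false

open scoped commutatorElement

namespace Pool.Agent.Helper705.SRF

/-- Central extension of `M` by `C` with a biadditive cocycle. -/
@[ext]
structure Ext {M C : Type} [AddCommGroup M] [AddCommGroup C] (γ : M →+ M →+ C) where
  fst : M
  snd : C

namespace Ext

variable {M C : Type} [AddCommGroup M] [AddCommGroup C] {γ : M →+ M →+ C}

instance : Mul (Ext γ) := ⟨fun a b => ⟨a.fst + b.fst, a.snd + b.snd + γ a.fst b.fst⟩⟩
instance : One (Ext γ) := ⟨⟨0, 0⟩⟩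
instance : Inv (Ext γ) := ⟨fun a => ⟨-a.fst, -a.snd + γ a.fst a.fst⟩⟩

@[simp] lemma mul_fst (a b : Ext γ) : (a * b).fst = a.fst + b.fst := rfl
@[simp] lemma mul_snd (a b : Ext γ) : (a * b).snd = a.snd + b.snd + γ a.fst b.fst := rfl
@[simp] lemma one_fst : (1 : Ext γ).fst = 0 := rfl
@[simp] lemma one_snd : (1 : Ext γ).snd = 0 := rfl
@[simp] lemma inv_fst (a : Ext γ) : (a⁻¹).fst = -a.fst := rfl
@[simp] lemma inv_snd (a : Ext γ) : (a⁻¹).snd = -a.snd + γ a.fst a.fst := rfl

instance : Group (Ext γ) := Group.ofLeftAxioms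
  (by intro a b c; ext <;> simp <;> abel)
  (by intro a; ext <;> simp)
  (by intro a; ext <;> simp)

lemma comm_eq (a b : Ext γ) : ⁅a, b⁆ = ⟨0, γ a.fst b.fst - γ b.fst a.fst⟩ := by
  have h : a * b = (⟨0, γ a.fst b.fst - γ b.fst a.fst⟩ : Ext γ) * (b * a) := by
    ext
    · simp [add_comm]
    · simp; abel
  have h2 : ⁅a, b⁆ = (a * b) * (b * a)⁻¹ := by
    rw [commutatorElement_def, mul_inv_rev]; group
  rw [h2, h, mul_assoc, mul_inv_cancel, mul_one]

/-- projection -/
def proj (γ : M →+ M →+ C) : Ext γ →* Multiplicative M where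
  toFun a := Multiplicative.ofAdd a.fst
  map_one' := rfl
  map_mul' _ _ := rfl

/-- central inclusion -/
def incl (γ : M →+ M →+ C) : Multiplicative C →* Ext γ where
  toFun c := ⟨0, Multiplicative.toAdd c⟩
  map_one' := rfl
  map_mul' a b := by ext <;> simp

instance : Group.IsSolvable (Ext γ) := by
  refine Group.isSolvable_of_ker_le_range (incl γ) (proj γ) ?_
  intro x hx
  refine ⟨Multiplicative.ofAdd x.snd, ?_⟩
  have hx' : x.fst = 0 := by
    have : proj γ x = 1 := hx
    exact this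
  ext
  · simp [incl, hx']
  · simp [incl]

lemma exists_lift {N : Type} [Group N] [IsFreeGroup N] (γ : M →+ M →+ C)
    (μ : N →* Multiplicative M) :
    ∃ ρ : N →* Ext γ, ∀ n, (ρ n).fst = Multiplicative.toAdd (μ n) := by
  refine ⟨IsFreeGroup.lift (fun i => (⟨Multiplicative.toAdd (μ (IsFreeGroup.of i)), 0⟩ : Ext γ)), ?_⟩
  have h : (proj γ).comp (IsFreeGroup.lift
      (fun i => (⟨Multiplicative.toAdd (μ (IsFreeGroup.of i)), 0⟩ : Ext γ))) = μ := by
    apply IsFreeGroup.ext_hom
    intro a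
    simp [proj]
  intro n
  exact DFunLike.congr_fun h n

end Ext

end Pool.Agent.Helper705.SRF
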