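import Mathlib
import Pool.Agent.Helper705.SRF.Ext
import Pool.Agent.Helper705.SRF.Form

set_option autoImplicit false

open scoped commutatorElement

namespace Pool.Agent.Helper705.SRF

variable {Ω : Type}

/-- pointwise product as a cocycle -/
noncomputable def gam (Ω : Type) :
    ((Ω →₀ ZMod 2) × (Ω →₀ ZMod 2)) →+ ((Ω →₀ ZMod 2) × (Ω →₀ ZMod 2)) →+ (Ω →₀ ZMod 2) :=
  AddMonoidHom.mk' (fun a => AddMonoidHom.mk' (fun b => a.1 * b.2)
    (by intro x y; simp [mul_add])) (by intro x y; ext z; simp [add_mul])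

@[simp] lemma gam_apply (a b : (Ω →₀ ZMod 2) × (Ω →₀ ZMod 2)) : gam Ω a b = a.1 * b.2 := rfl

/-- The class two group of the base -/
abbrev HB (Ω : Type) := Ext (gam Ω)

lemma mapDomain_mul (σ : Equiv.Perm Ω) (a b : Ω →₀ ZMod 2) :
    Finsupp.mapDomain σ (a * b) = Finsupp.mapDomain σ a * Finsupp.mapDomain σ b := by
  ext ω
  simp [Finsupp.mapDomain_equiv_apply]

lemma mapDomain_mul_perm (σ τ : Equiv.Perm Ω) (a : Ω →₀ ZMod 2) :
    Finsupp.mapDomain (σ * τ : Equiv.Perm Ω) a = Finsupp.mapDomain σ (Finsupp.mapDomain τ a) := by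
  rw [← Finsupp.mapDomain_comp]; rfl

@[simp] lemma mapDomain_one_perm (a : Ω →₀ ZMod 2) :
    Finsupp.mapDomain (1 : Equiv.Perm Ω) a = a := by
  have : ((1 : Equiv.Perm Ω) : Ω → Ω) = id := rfl
  rw [this, Finsupp.mapDomain_id]

/-- the action of one permutation -/
noncomputable def actFun (σ : Equiv.Perm Ω) (h : HB Ω) : HB Ω :=
  ⟨(Finsupp.mapDomain σ h.fst.1, Finsupp.mapDomain σ h.fst.2), Finsupp.mapDomain σ h.snd⟩

@[simp] lemma actFun_fst (σ : Equiv.Perm Ω) (h : HB Ω) : (actFun σ h).fst =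
  (Finsupp.mapDomain σ h.fst.1, Finsupp.mapDomain σ h.fst.2) := rfl

@[simp] lemma actFun_snd (σ : Equiv.Perm Ω) (h : HB Ω) : (actFun σ h).snd =
  Finsupp.mapDomain σ h.snd := rfl

lemma actFun_mul (σ : Equiv.Perm Ω) (h h' : HB Ω) :
    actFun σ (h * h') = actFun σ h * actFun σ h' := by
  apply Ext.ext
  · simp [Finsupp.mapDomain_add]
  · simp [Finsupp.mapDomain_add, mapDomain_mul]

lemma actFun_comp (σ τ : Equiv.Perm Ω) (h : HB Ω) :
    actFun (σ * τ) h = actFun σ (actFun τ h) := by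
  apply Ext.ext
  · simp [Finsupp.mapDomain_comp]
  · simp [Finsupp.mapDomain_comp]

lemma actFun_one (h : HB Ω) : actFun (1 : Equiv.Perm Ω) h = h := by
  apply Ext.ext
  · simp
  · simp

/-- the action of the symmetric group on the base group -/
noncomputable def act (Ω : Type) : Equiv.Perm Ω →* MulAut (HB Ω) where
  toFun σ :=
    { toFun := actFun σ
      invFun := actFun σ⁻¹
      left_inv := by intro h; rw [← actFun_comp, inv_mul_cancel, actFun_one]
      right_inv := by intro h; rw [← actFun_comp, mul_inv_cancel, actFun_one]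
      map_mul' := actFun_mul σ }
  map_one' := by apply MulEquiv.ext; intro h; exact actFun_one h
  map_mul' σ τ := by apply MulEquiv.ext; intro h; exact actFun_comp σ τ h

@[simp] lemma act_apply (σ : Equiv.Perm Ω) (h : HB Ω) : act Ω σ h = actFun σ h := rfl

variable {Q : Type} [Group Q] (θ : Q →* Equiv.Perm Ω)

/-- the wreath-like group -/
abbrev Wr (θ : Q →* Equiv.Perm Ω) := HB Ω ⋊[(act Ω).comp θ] Q

/-- the bottom layer as a normal subgroup -/
def botM (θ : Q →* Equiv.Perm Ω) : Subgroup (Wr θ) where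
  carrier := {y | y.right = 1 ∧ y.left.fst = 0}
  one_mem' := ⟨rfl, rfl⟩
  mul_mem' := by
    rintro a b ⟨ha, ha'⟩ ⟨hb, hb'⟩
    refine ⟨by simp [ha, hb], ?_⟩
    simp [ha, ha', hb']
  inv_mem' := by
    rintro a ⟨ha, ha'⟩
    refine ⟨by simp [ha], ?_⟩
    simp [ha, ha']

lemma botM_conj (y m : Wr θ) (hm : m ∈ botM θ) :
    y * m * y⁻¹ = ⟨⟨0, Finsupp.mapDomain (θ y.right) m.left.snd⟩, 1⟩ := by
  obtain ⟨h1, h2⟩ := hm
  rw [mul_inv_eq_iff_eq_mul]
  apply SemidirectProduct.ext
  · apply Ext.ext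
    · simp [h2]
    · simp [h2, add_comm]
  · simp [h1]

instance : (botM θ).Normal := by
  constructor
  intro m hm y
  rw [botM_conj θ y m hm]
  exact ⟨rfl, rfl⟩

instance [Group.IsSolvable Q] : Group.IsSolvable (Wr θ) :=
  Group.isSolvable_of_ker_le_range (SemidirectProduct.inl (φ := (act Ω).comp θ))
    SemidirectProduct.rightHom (le_of_eq SemidirectProduct.range_inl_eq_ker_rightHom.symm)

/-- the free group on the underlying set of the wreath-like group -/
abbrev FF (θ : Q →* Equiv.Perm Ω) := FreeGroup (Wr θ)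

/-- evaluation -/
noncomputable def ev (θ : Q →* Equiv.Perm Ω) : FF θ →* Wr θ := FreeGroup.lift id

@[simp] lemma ev_of (y : Wr θ) : ev θ (FreeGroup.of y) = y := by simp [ev]

/-- the preimage of the bottom layer -/
noncomputable def NN (θ : Q →* Equiv.Perm Ω) : Subgroup (FF θ) := (botM θ).comap (ev θ)

instance : (NN θ).Normal := by unfold NN; infer_instance

/-- the label of an element of `NN` -/
noncomputable def lab (θ : Q →* Equiv.Perm Ω) : NN θ →* Multiplicative (Ω →₀ ZMod 2) where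
  toFun n := Multiplicative.ofAdd (ev θ (n : FF θ)).left.snd
  map_one' := by simp
  map_mul' a b := by
    have ha : (ev θ (a : FF θ)).right = 1 ∧ (ev θ (a : FF θ)).left.fst = 0 := a.2
    have hb : (ev θ (b : FF θ)).right = 1 ∧ (ev θ (b : FF θ)).left.fst = 0 := b.2
    rw [← ofAdd_add]
    congr 1
    simp [ha.1, ha.2, hb.2]

lemma lab_apply (n : NN θ) : Multiplicative.toAdd (lab θ n) = (ev θ (n : FF θ)).left.snd := rfl

lemma lab_conj (f : FF θ) (n : NN θ) : Multiplicative.toAdd (lab θ (MulAut.conjNormal f n)) =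
    Finsupp.mapDomain (θ (ev θ f).right) (Multiplicative.toAdd (lab θ n)) := by
  rw [lab_apply, lab_apply]
  simp only [MulAut.conjNormal_apply, map_mul, map_inv]
  rw [botM_conj θ (ev θ f) (ev θ n) n.2]

end Pool.Agent.Helper705.SRF
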