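import Mathlib
import Pool.Agent.Helper705.SRF.Ext
import Pool.Agent.Helper705.SRF.Form

set_option autoImplicit false

open scoped commutatorElement

namespace Pool.Agent.Helper705.SRF

variable {Ω : Type}

theorem exists_cover {F : Type} [Group F] [IsFreeGroup F] (N : Subgroup F) [N.Normal]
    (μ : N →* Multiplicative (Ω →₀ ZMod 2)) (σ : F → Equiv.Perm Ω)
    (hμ : ∀ (f : F) (n : N), Multiplicative.toAdd (μ (MulAut.conjNormal f n)) =
      Finsupp.mapDomain (σ f) (Multiplicative.toAdd (μ n))) :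
    ∃ W : Subgroup F, W.Normal ∧
      (∀ a b c d : N,
        B kerB (Multiplicative.toAdd (μ a)) (Multiplicative.toAdd (μ b)) =
          B kerB (Multiplicative.toAdd (μ c)) (Multiplicative.toAdd (μ d)) →
        ⁅(a : F), (b : F)⁆ * ⁅(c : F), (d : F)⁆⁻¹ ∈ W) ∧
      (∀ a b : N,
        B kerB (Multiplicative.toAdd (μ a)) (Multiplicative.toAdd (μ b)) ≠ 0 →
          ⁅(a : F), (b : F)⁆ ∉ W) := by
  classical
  let _ : LinearOrder Ω := IsWellOrder.linearOrder (WellOrderingRel (α := Ω))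
  have _ : IsFreeGroup N := subgroupIsFreeOfIsFree N
  obtain ⟨ρ, hρ⟩ := Ext.exists_lift (BAdd (kerL (Ω := Ω))) μ
  have hcomm : ∀ a b : N, ρ ⁅a, b⁆ =
      ⟨0, B kerB (Multiplicative.toAdd (μ a)) (Multiplicative.toAdd (μ b))⟩ := by
    intro a b
    rw [map_commutatorElement, Ext.comm_eq, hρ, hρ, BAdd_apply, BAdd_apply, B_sub_swap]
  have hinv : ∀ (f : F) (n : N), n ∈ commutator N → ρ (MulAut.conjNormal f n) = ρ n := by
    intro f n hn
    have hle : commutator N ≤ MonoidHom.eqLocus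
        (ρ.comp (MulAut.conjNormal f : MulAut N).toMonoidHom) ρ := by
      rw [commutator_def, Subgroup.commutator_le]
      intro a _ b _
      change ρ (MulAut.conjNormal f ⁅a, b⁆) = ρ ⁅a, b⁆
      rw [map_commutatorElement, hcomm, hcomm, hμ, hμ, B_perm]
    exact hle hn
  refine ⟨Subgroup.map N.subtype (ρ.ker ⊓ commutator N), ?_, ?_, ?_⟩
  · constructor
    rintro _ ⟨n, ⟨hn1, hn2⟩, rfl⟩ f
    refine ⟨MulAut.conjNormal f n, ⟨?_, ?_⟩, ?_⟩
    · change ρ (MulAut.conjNormal f n) = 1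
      rw [hinv f n hn2]; exact hn1
    · have hchar : (commutator N).Characteristic := inferInstance
      have := (Subgroup.characteristic_iff_map_le.mp hchar) (MulAut.conjNormal f : MulAut N)
      exact this ⟨n, hn2, rfl⟩
    · simp
  · intro a b c d h
    refine ⟨⁅a, b⁆ * ⁅c, d⁆⁻¹, ⟨?_, ?_⟩, ?_⟩
    · change ρ (⁅a, b⁆ * ⁅c, d⁆⁻¹) = 1
      rw [map_mul, map_inv, hcomm, hcomm, h, mul_inv_cancel]
    · change ⁅a, b⁆ * ⁅c, d⁆⁻¹ ∈ commutator N
      refine Subgroup.mul_mem _ ?_ (Subgroup.inv_mem _ ?_)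
      · exact Subgroup.commutator_mem_commutator (Subgroup.mem_top _) (Subgroup.mem_top _)
      · exact Subgroup.commutator_mem_commutator (Subgroup.mem_top _) (Subgroup.mem_top _)
    · simp [commutatorElement_def]
  · rintro a b h ⟨n, ⟨hn1, hn2⟩, hn⟩
    have e : n = ⁅a, b⁆ := by
      apply Subtype.ext
      rw [← Subgroup.coe_subtype, hn]
      simp [commutatorElement_def]
    subst e
    have h1 : ρ ⁅a, b⁆ = 1 := hn1
    rw [hcomm] at h1
    exact h (congrArg Ext.snd h1)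

end Pool.Agent.Helper705.SRF
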