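import Mathlib
import Pool.Agent.Helper705.SRF.Cover
import Pool.Agent.Helper705.SRF.Wr
import Pool.Agent.Helper705.SRF.Aff

set_option autoImplicit false

open scoped commutatorElement

namespace Pool.Agent.Helper705.SRF

/-- the inner word -/
def rw' {G : Type} [Group G] (x : ℕ → G) : G := ⁅⁅x 1, x 2⁆ ^ 2, ⁅x 3, x 4⁆ ^ 2⁆

/-- the acting word -/
def gw {G : Type} [Group G] (x : ℕ → G) (k : ℕ) : G := ⁅⁅x 5, x 6⁆, x 6 ^ k⁆

/-- the word whose values are compared -/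
def fw {G : Type} [Group G] (x : ℕ → G) (k : ℕ) : G :=
  ⁅rw' x, gw x k * rw' x * (gw x k)⁻¹⁆

lemma map_rw {G H : Type} [Group G] [Group H] (φ : G →* H) (x : ℕ → G) :
    φ (rw' x) = rw' (fun i => φ (x i)) := by
  simp [rw', map_commutatorElement]

lemma map_gw {G H : Type} [Group G] [Group H] (φ : G →* H) (x : ℕ → G) (k : ℕ) :
    φ (gw x k) = gw (fun i => φ (x i)) k := by
  simp [gw, map_commutatorElement]

lemma map_fw {G H : Type} [Group G] [Group H] (φ : G →* H) (x : ℕ → G) (k : ℕ) :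
    φ (fw x k) = fw (fun i => φ (x i)) k := by
  simp [fw, map_commutatorElement, map_rw, map_gw]

section

variable {Ω Q : Type} [Group Q] (θ : Q →* Equiv.Perm Ω)

lemma rw_mem (hQ : ∀ x y : Q, ⁅x, y⁆ ^ 2 = 1) (x : ℕ → FF θ) : rw' x ∈ NN θ := by
  have h : ∀ a b : Wr θ, ∃ h : HB Ω, ⁅a, b⁆ ^ 2 = SemidirectProduct.inl h := by
    intro a b
    have : ⁅a, b⁆ ^ 2 ∈ (SemidirectProduct.rightHom : Wr θ →* Q).ker := by
      rw [MonoidHom.mem_ker, map_pow, map_commutatorElement]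
      exact hQ _ _
    rw [← SemidirectProduct.range_inl_eq_ker_rightHom] at this
    obtain ⟨h, hh⟩ := this
    exact ⟨h, hh.symm⟩
  change ev θ (rw' x) ∈ botM θ
  rw [map_rw]
  obtain ⟨h1, e1⟩ := h (ev θ (x 1)) (ev θ (x 2))
  obtain ⟨h2, e2⟩ := h (ev θ (x 3)) (ev θ (x 4))
  rw [rw', e1, e2, ← map_commutatorElement]
  refine ⟨rfl, ?_⟩
  rw [SemidirectProduct.left_inl, Ext.comm_eq]

/-- Properties of a normal subgroup making the quotient a counterexample. -/
theorem main_cover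
    (hQ : ∀ x y : Q, ⁅x, y⁆ ^ 2 = 1)
    (hkey : ∀ x y : Q, (∀ k : ℕ, θ ⁅⁅x, y⁆, y ^ k⁆ = 1) ∨
      (∀ k : ℕ, k ≠ 0 → (∀ ω, θ ⁅⁅x, y⁆, y ^ k⁆ (θ ⁅⁅x, y⁆, y ^ k⁆ ω) = ω) ∧
      ∀ ω, θ ⁅⁅x, y⁆, y ^ k⁆ ω ≠ ω))
    [Group.IsSolvable Q]
    (y : ℕ → Wr θ) (h1 : aug (rw' y).left.snd ≠ 0) (h2 : θ (gw y 1).right ≠ 1) :
    ∃ W : Subgroup (FF θ), W.Normal ∧
      (∀ (x : ℕ → FF θ) (k : ℕ), k ≠ 0 → fw x k * (fw x 1)⁻¹ ∈ W) ∧
      (fw (fun i => FreeGroup.of (y i)) 1 ∉ W) ∧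
      ∃ n, derivedSeries (FF θ) n ≤ W := by
  classical
  obtain ⟨W, hW, hA, hB⟩ := exists_cover (NN θ) (lab θ) (fun f => θ (ev θ f).right)
    (lab_conj θ)
  have hgk : ∀ (x : ℕ → FF θ) (k : ℕ), (ev θ (gw x k)).right =
      ⁅⁅(ev θ (x 5)).right, (ev θ (x 6)).right⁆, (ev θ (x 6)).right ^ k⁆ := by
    intro x k
    have := map_gw ((SemidirectProduct.rightHom : Wr θ →* Q).comp (ev θ)) x k
    exact this
  -- values of the form
  have hval : ∀ (x : ℕ → FF θ) (k : ℕ), k ≠ 0 →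
      B kerB (Multiplicative.toAdd (lab θ ⟨rw' x, rw_mem θ hQ x⟩))
        (Multiplicative.toAdd (lab θ (MulAut.conjNormal (gw x k) ⟨rw' x, rw_mem θ hQ x⟩))) =
      if θ (ev θ (gw x 1)).right = 1 then 0 else
        aug (Multiplicative.toAdd (lab θ ⟨rw' x, rw_mem θ hQ x⟩)) := by
    intro x k hk
    rw [lab_conj]
    rcases hkey (ev θ (x 5)).right (ev θ (x 6)).right with h | h
    · have hk' := h k
      have h1' := h 1
      rw [← hgk] at hk' h1'
      rw [if_pos h1', hk', mapDomain_one_perm, B_self]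
    · have hk' := h k hk
      have h1' := h 1 one_ne_zero
      rw [← hgk] at hk' h1'
      have hne : Nonempty Ω := by
        by_contra hem
        rw [not_nonempty_iff] at hem
        exact h1 (by
          have : (rw' y).left.snd = 0 := by ext ω; exact (hem.false ω).elim
          rw [this, map_zero])
      obtain ⟨ω0⟩ := hne
      rw [if_neg, B_invol _ hk'.1 hk'.2]
      intro e
      exact h1'.2 ω0 (by rw [e]; rfl)
  have hf : ∀ (x : ℕ → FF θ) (k : ℕ), fw x k =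
      ⁅((⟨rw' x, rw_mem θ hQ x⟩ : NN θ) : FF θ),
        ((MulAut.conjNormal (gw x k) (⟨rw' x, rw_mem θ hQ x⟩ : NN θ) : NN θ) : FF θ)⁆ := by
    intro x k
    simp [fw]
  refine ⟨W, hW, ?_, ?_, ?_⟩
  · intro x k hk
    rw [hf x k, hf x 1]
    apply hA
    rw [hval x k hk, hval x 1 one_ne_zero]
  · rw [hf]
    apply hB
    rw [hval _ 1 one_ne_zero, if_neg, lab_apply]
    · have : ev θ (rw' fun i => FreeGroup.of (y i)) = rw' y := by
        rw [map_rw]; simp
      simp only [this]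
      exact h1
    · have : ev θ (gw (fun i => FreeGroup.of (y i)) 1) = gw y 1 := by
        rw [map_gw]; simp
      rw [this]
      exact h2
  · obtain ⟨n, hn⟩ := (inferInstance : Group.IsSolvable (Wr θ)).solvable
    refine ⟨n + 1, ?_⟩
    have hker : derivedSeries (FF θ) n ≤ (ev θ).ker := by
      intro a ha
      have : ev θ a ∈ derivedSeries (Wr θ) n :=
        map_derivedSeries_le_derivedSeries (ev θ) n ⟨a, ha, rfl⟩
      rw [hn] at this
      exact this
    rw [derivedSeries_succ, Subgroup.commutator_le]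
    intro a ha b hb
    have ha' : ev θ a = 1 := hker ha
    have hb' : ev θ b = 1 := hker hb
    have haN : a ∈ NN θ := by change ev θ a ∈ botM θ; rw [ha']; exact one_mem _
    have hbN : b ∈ NN θ := by change ev θ b ∈ botM θ; rw [hb']; exact one_mem _
    have := hA ⟨a, haN⟩ ⟨b, hbN⟩ 1 1 (by
      simp [lab_apply, ha', hb'])
    simpa using this

end

end Pool.Agent.Helper705.SRF
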