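import Mathlib
import Pool.Agent.Helper705.SRF.Words

set_option autoImplicit false

open scoped commutatorElement

namespace Pool.Agent.Helper705.SRF

section

variable {Ω Q : Type} [Group Q] (θ : Q →* Equiv.Perm Ω)

lemma actFun_unit {Ω : Type} (σ : Equiv.Perm Ω) : actFun σ (1 : HB Ω) = 1 := map_one (act Ω σ)

lemma comm_inl (a t : Q) (u : HB Ω) :
    ⁅(SemidirectProduct.inr a : Wr θ), (SemidirectProduct.inl u * SemidirectProduct.inr t : Wr θ)⁆ =
      (SemidirectProduct.inl (actFun (θ a) u * (actFun (θ ⁅a, t⁆) u)⁻¹) *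
        SemidirectProduct.inr ⁅a, t⁆ : Wr θ) := by
  have hv : ⁅a, t⁆ * t * a = a * t := by rw [commutatorElement_def]; group
  generalize ⁅a, t⁆ = v at hv ⊢
  rw [commutatorElement_def, mul_inv_eq_iff_eq_mul, mul_inv_eq_iff_eq_mul]
  apply SemidirectProduct.ext
  · simp [mul_assoc, -map_mul, actFun_unit]
  · simp [hv]

lemma sq_inl (v : Q) (hv : v ^ 2 = 1) (w : HB Ω) :
    ((SemidirectProduct.inl w * SemidirectProduct.inr v : Wr θ)) ^ 2 =
      SemidirectProduct.inl (w * actFun (θ v) w) := by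
  rw [pow_two]
  rw [pow_two] at hv
  apply SemidirectProduct.ext
  · simp
  · simp [hv]

lemma rw_left (y : ℕ → Wr θ) (a b t : Q) (u v : HB Ω)
    (hab : ⁅a, t⁆ ^ 2 = 1) (hbb : ⁅b, t⁆ ^ 2 = 1)
    (h1 : y 1 = SemidirectProduct.inr a)
    (h2 : y 2 = SemidirectProduct.inl u * SemidirectProduct.inr t)
    (h3 : y 3 = SemidirectProduct.inr b)
    (h4 : y 4 = SemidirectProduct.inl v * SemidirectProduct.inr t) :
    (rw' y).left = ⁅(actFun (θ a) u * (actFun (θ ⁅a, t⁆) u)⁻¹) *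
        actFun (θ ⁅a, t⁆) (actFun (θ a) u * (actFun (θ ⁅a, t⁆) u)⁻¹),
      (actFun (θ b) v * (actFun (θ ⁅b, t⁆) v)⁻¹) *
        actFun (θ ⁅b, t⁆) (actFun (θ b) v * (actFun (θ ⁅b, t⁆) v)⁻¹)⁆ := by
  rw [rw', h1, h2, h3, h4, comm_inl, comm_inl, sq_inl θ _ hab, sq_inl θ _ hbb,
    ← map_commutatorElement, SemidirectProduct.left_inl]

end

section

variable {S : Type} [Field S] (s : Sˣ)

lemma aug_single_mul {Ω : Type} (x : Ω) (q : Ω →₀ ZMod 2) :
    aug (Finsupp.single x 1 * q) = q x := by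
  have : Finsupp.single x 1 * q = Finsupp.single x (q x) := by
    ext z
    by_cases h : x = z
    · subst h; simp
    · simp [h]
  rw [this, aug_single]

/-- the element of the base group supported at the origin, first coordinate -/
noncomputable def u1 (S : Type) [Field S] : HB S := ⟨(Finsupp.single 0 1, 0), 0⟩
/-- the element of the base group supported at the origin, second coordinate -/
noncomputable def u2 (S : Type) [Field S] : HB S := ⟨(0, Finsupp.single 0 1), 0⟩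

/-- the test tuple -/
noncomputable def yy (a b : S) : ℕ → Wr (Aff.toPerm (S := S) (s := s)) := fun i =>
  if i = 1 then SemidirectProduct.inr ⟨0, a⟩
  else if i = 2 then SemidirectProduct.inl (u1 S) * SemidirectProduct.inr ⟨1, 0⟩
  else if i = 3 then SemidirectProduct.inr ⟨0, b⟩
  else if i = 4 then SemidirectProduct.inl (u2 S) * SemidirectProduct.inr ⟨1, 0⟩
  else if i = 5 then SemidirectProduct.inr ⟨0, 1⟩
  else SemidirectProduct.inr ⟨1, 0⟩

lemma zneg (x : ZMod 2) : -x = x := by revert x; decide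

lemma fneg {Ω : Type} (x : Ω →₀ ZMod 2) : -x = x := by ext z; simp

lemma yy_val (a b : S) (h2 : (2 : S) = 0) :
    (rw' (yy s a b)).left.snd =
      (Finsupp.single a 1 + Finsupp.single (a - s * a) 1 + Finsupp.single (a - s * a + a) 1
        + Finsupp.single 0 1) *
      (Finsupp.single b 1 + Finsupp.single (b - s * b) 1 + Finsupp.single (b - s * b + b) 1
        + Finsupp.single 0 1) := by
  rw [rw_left (Aff.toPerm (S := S) (s := s)) (yy s a b) ⟨0, a⟩ ⟨0, b⟩ ⟨1, 0⟩ (u1 S) (u2 S)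
    (Aff.comm_sq h2 _ _) (Aff.comm_sq h2 _ _) (by simp [yy]) (by simp [yy]) (by simp [yy])
    (by simp [yy])]
  rw [Ext.comm_eq, Aff.comm_trans, Aff.comm_trans]
  have e1 : ∀ c : S, c - s * c + (c - s * c) = 0 := fun c => by linear_combination (c - s * c) * h2
  simp [u1, u2, Finsupp.mapDomain_add, Finsupp.mapDomain_single, fneg, e1]
  simp only [add_comm (a - ↑s * a) a, add_comm (b - ↑s * b) b, add_assoc]

end

section

open Polynomial

/-- the field of rational functions -/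
abbrev KK := RatFunc (ZMod 2)

/-- the variable as a unit -/
noncomputable def sX : KKˣ := Units.mk0 RatFunc.X RatFunc.X_ne_zero

lemma sX_val : ((sX : KKˣ) : KK) = RatFunc.X := rfl

lemma iota_ne (P R : (ZMod 2)[X]) (n : ℕ) (h : P.coeff n ≠ R.coeff n) :
    algebraMap (ZMod 2)[X] KK P ≠ algebraMap (ZMod 2)[X] KK R := by
  intro e
  exact h (by rw [IsFractionRing.injective (ZMod 2)[X] KK e])

lemma two_KK : (2 : KK) = 0 := by
  have h : (2 : ZMod 2) = 0 := rfl
  have h' := map_ofNat (algebraMap (ZMod 2) KK) 2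
  rw [← h']
  have h'' : (OfNat.ofNat 2 : ZMod 2) = 0 := h
  rw [h'', map_zero]

lemma sX_pow (n : ℤ) (hn : n ≠ 0) : ((sX ^ n : KKˣ) : KK) ≠ 1 := by
  have hnat : ∀ m : ℕ, m ≠ 0 → ((sX ^ m : KKˣ) : KK) ≠ 1 := by
    intro m hm
    have := iota_ne (X ^ m) 1 m (by
      rw [coeff_X_pow, coeff_one]; simp [hm])
    simpa [sX_val] using this
  rcases Int.natAbs_eq n with h | h
  · rw [h, zpow_natCast]
    exact hnat _ (by simpa using hn)
  · rw [h, zpow_neg, zpow_natCast]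
    intro e
    apply hnat n.natAbs (by simpa using hn)
    have e' : (sX ^ n.natAbs : KKˣ)⁻¹ = 1 := Units.ext e
    rw [inv_eq_one] at e'
    rw [e']; rfl

lemma h1_inst : aug (rw' (yy sX (1 : KK) (RatFunc.X ^ 2))).left.snd ≠ 0 := by
  rw [yy_val sX _ _ two_KK]
  have tP : (2 : (ZMod 2)[X]) = 0 := by
    have := congrArg Polynomial.C (show (2 : ZMod 2) = 0 from rfl)
    rw [map_zero] at this
    rw [← this]; rfl
  have a1 : (RatFunc.X ^ 2 : KK) ≠ 1 := by
    have := iota_ne (X ^ 2) 1 0 (by simp); simpa using this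
  have a2 : (RatFunc.X ^ 2 : KK) ≠ 1 - RatFunc.X * 1 := by
    have := iota_ne (X ^ 2) (1 - X * 1) 0 (by simp); simpa using this
  have a3 : (RatFunc.X ^ 2 : KK) ≠ 1 - RatFunc.X * 1 + 1 := by
    have := iota_ne (X ^ 2) (1 - X * 1 + 1) 1 (by simp [coeff_one]); simpa using this
  have a4 : (RatFunc.X ^ 2 : KK) ≠ 0 := by
    have := iota_ne (X ^ 2) 0 2 (by simp); simpa using this
  have b1 : (RatFunc.X ^ 2 - RatFunc.X * RatFunc.X ^ 2 : KK) ≠ 1 := by
    have := iota_ne (X ^ 2 - X * X ^ 2) 1 0 (by simp); simpa using this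
  have b2 : (RatFunc.X ^ 2 - RatFunc.X * RatFunc.X ^ 2 : KK) ≠ 1 - RatFunc.X * 1 := by
    have := iota_ne (X ^ 2 - X * X ^ 2) (1 - X * 1) 0 (by simp); simpa using this
  have b3 : (RatFunc.X ^ 2 - RatFunc.X * RatFunc.X ^ 2 : KK) ≠ 1 - RatFunc.X * 1 + 1 := by
    have := iota_ne (X ^ 2 - X * X ^ 2) (1 - X * 1 + 1) 1
      (by simp [coeff_one, coeff_X_mul, coeff_X_pow]); simpa using this
  have b4 : (RatFunc.X ^ 2 - RatFunc.X * RatFunc.X ^ 2 : KK) ≠ 0 := by
    have := iota_ne (X ^ 2 - X * X ^ 2) 0 2 (by simp [coeff_X_mul, coeff_X_pow])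
    simpa using this
  have c1 : (RatFunc.X ^ 2 - RatFunc.X * RatFunc.X ^ 2 + RatFunc.X ^ 2 : KK) ≠ 1 := by
    have := iota_ne (X ^ 2 - X * X ^ 2 + X ^ 2) 1 0 (by simp); simpa using this
  have c2 : (RatFunc.X ^ 2 - RatFunc.X * RatFunc.X ^ 2 + RatFunc.X ^ 2 : KK) ≠
      1 - RatFunc.X * 1 := by
    have := iota_ne (X ^ 2 - X * X ^ 2 + X ^ 2) (1 - X * 1) 0 (by simp); simpa using this
  have c3 : (RatFunc.X ^ 2 - RatFunc.X * RatFunc.X ^ 2 + RatFunc.X ^ 2 : KK) ≠
      1 - RatFunc.X * 1 + 1 := by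
    have := iota_ne (X ^ 2 - X * X ^ 2 + X ^ 2) (1 - X * 1 + 1) 1
      (by simp [coeff_one, coeff_X_mul, coeff_X_pow]); simpa using this
  have c4 : (RatFunc.X ^ 2 - RatFunc.X * RatFunc.X ^ 2 + RatFunc.X ^ 2 : KK) ≠ 0 := by
    have := iota_ne (X ^ 2 - X * X ^ 2 + X ^ 2) 0 3 (by simp [coeff_X_mul, coeff_X_pow])
    simpa using this
  have d1 : (0 : KK) ≠ 1 := by
    have := iota_ne 0 1 0 (by simp); simpa using this
  have d2 : (0 : KK) ≠ 1 - RatFunc.X * 1 := by
    have := iota_ne 0 (1 - X * 1) 0 (by simp); simpa using this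
  have d3 : (0 : KK) ≠ 1 - RatFunc.X * 1 + 1 := by
    have := iota_ne 0 (1 - X * 1 + 1) 1 (by simp [coeff_one]); simpa using this
  simp only [add_mul, map_add, aug_single_mul, Finsupp.add_apply, sX_val]
  rw [Finsupp.single_eq_of_ne a1.symm, Finsupp.single_eq_of_ne a2.symm,
    Finsupp.single_eq_of_ne a3.symm, Finsupp.single_eq_of_ne a4.symm,
    Finsupp.single_eq_of_ne b1.symm, Finsupp.single_eq_of_ne b2.symm,
    Finsupp.single_eq_of_ne b3.symm, Finsupp.single_eq_of_ne b4.symm,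
    Finsupp.single_eq_of_ne c1.symm, Finsupp.single_eq_of_ne c2.symm,
    Finsupp.single_eq_of_ne c3.symm, Finsupp.single_eq_of_ne c4.symm,
    Finsupp.single_eq_of_ne d1.symm, Finsupp.single_eq_of_ne d2.symm,
    Finsupp.single_eq_of_ne d3.symm, Finsupp.single_eq_same]
  decide

lemma h2_inst : Aff.toPerm (gw (yy sX (1 : KK) (RatFunc.X ^ 2)) 1).right ≠ 1 := by
  have e : (gw (yy sX (1 : KK) (RatFunc.X ^ 2)) 1).right =
      ⁅⁅(⟨0, 1⟩ : Aff KK sX), (⟨1, 0⟩ : Aff KK sX)⁆, (⟨1, 0⟩ : Aff KK sX) ^ 1⁆ := by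
    have := map_gw (SemidirectProduct.rightHom : Wr (Aff.toPerm (S := KK) (s := sX)) →* Aff KK sX)
      (yy sX (1 : KK) (RatFunc.X ^ 2)) 1
    refine this.trans ?_
    simp [gw, yy]
  rw [e, Aff.comm_trans, Aff.comm_trans]
  intro h
  have := congrArg (fun σ : Equiv.Perm KK => σ 0) h
  simp only [Aff.toPerm_apply, mul_zero, zero_add, pow_one, zpow_one, sX_val, mul_one,
    Equiv.Perm.coe_one, id_eq] at this
  have h1 := iota_ne (1 - X - X * (1 - X)) 0 0 (by simp)
  apply h1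
  simpa using this

end

end Pool.Agent.Helper705.SRF
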